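import Pool.Agent.H39.Newt3.Base

/-! # Project NEWTON3, module FSM: sums with finite support -/

set_option autoImplicit false

namespace Pool.Newt3

open MvPolynomial Pool.Agent.H39.MonoR Pool.Agent.H75.Mono Pool.Newt Pool.Newt2

theorem sFsm : SFsm := by
  classical
  intro σ I _ _ a X Wf Q hQ φ hφ hc m N
  choose! c hc using hc
  set B : ℤ := |N| + ∑ i, |m i| + ∑ i ∈ Q, (c i : ℤ) with hB
  refine summable_of_hasFiniteSupport
    ((Set.finite_Icc (0 : σ → ℤ) (fun _ => B)).subset fun u hu => ?_)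
  rw [Function.mem_support] at hu
  have hprod : ∏ ξ, shf φ m ξ (lam a u N ξ) ≠ 0 := left_ne_zero_of_mul hu
  have hfac : ∀ ξ, shf φ m ξ (lam a u N ξ) ≠ 0 := fun ξ => by
    rw [Finset.prod_ne_zero_iff] at hprod
    exact hprod ξ (Finset.mem_univ ξ)
  have hl : ∀ l, 0 ≤ u l ∧ (l ∉ Wf → u l = 0) := fun l => by
    have h1 : φ (some (Sum.inl l)) (u l) ≠ 0 := hfac (some (Sum.inl l))
    constructor
    · by_contra h2
      exact h1 (hφ l (u l) (Or.inl (not_le.1 h2)))
    · intro h3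
      by_contra h2
      exact h1 (hφ l (u l) (Or.inr ⟨h3, h2⟩))
  have hB0 : 0 ≤ B := by
    rw [hB]
    have h1 : (0 : ℤ) ≤ ∑ i, |m i| := Finset.sum_nonneg fun i _ => abs_nonneg _
    have h2 : (0 : ℤ) ≤ ∑ i ∈ Q, (c i : ℤ) := Finset.sum_nonneg fun i _ => Int.natCast_nonneg _
    have h3 := abs_nonneg N
    omega
  refine ⟨fun l => (hl l).1, fun l => ?_⟩
  show u l ≤ B
  by_cases hlW : l ∈ Wf
  · obtain ⟨i, hi, hil⟩ := hQ l hlW
    have h1 : φ (some (Sum.inr i)) (((∑ l, u l * (a i l : ℤ)) - N) - m i) ≠ 0 :=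
      hfac (some (Sum.inr i))
    have h2 : ((∑ l, u l * (a i l : ℤ)) - N) - m i ≤ c i := by
      by_contra h3
      exact h1 (hc i hi _ (not_le.1 h3))
    have h3 : u l * (a i l : ℤ) ≤ ∑ l, u l * (a i l : ℤ) :=
      Finset.single_le_sum (f := fun l => u l * (a i l : ℤ))
        (fun l' _ => mul_nonneg (hl l').1 (Int.natCast_nonneg _)) (Finset.mem_univ l)
    have h4 : u l ≤ u l * (a i l : ℤ) :=
      le_mul_of_one_le_right (hl l).1 (by exact_mod_cast Nat.one_le_iff_ne_zero.2 hil)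
    have h5 : |m i| ≤ ∑ i, |m i| :=
      Finset.single_le_sum (f := fun i => |m i|) (fun i _ => abs_nonneg _) (Finset.mem_univ i)
    have h6 : (c i : ℤ) ≤ ∑ i ∈ Q, (c i : ℤ) :=
      Finset.single_le_sum (f := fun i => (c i : ℤ)) (fun i _ => Int.natCast_nonneg _) hi
    have h7 := le_abs_self N
    have h8 := le_abs_self (m i)
    rw [hB]
    omega
  · rw [(hl l).2 hlW]
    exact hB0

end Pool.Newt3
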